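import Mathlib

/-!
# Differences of two perfect powers whose exponents have a common factor

If `p` is an odd prime with `p ≡ 2 (mod 3)` then `2 p` is not of the form `x^k - y^l` with
`gcd(k, l) > 1`: if `q` is a prime divisor of `gcd(k, l)`, then `2p = X^q - Y^q`; for `q = 2` this is
impossible mod 4, for odd `q` one has `X - Y ≡ 2p ≡ 4 (mod 6)` and `X - Y ∣ 2p`, hence `X - Y = 2p`.
-/

set_option autoImplicit false

namespace Pool.Agent.Results.MP_cb2e5b_nt.CommonExponent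

theorem pow_odd_six (t : ZMod 6) (m : ℕ) : t ^ (2 * m + 1) = t := by
  induction m with
  | zero => simp
  | succ m ih =>
    have h : t ^ (2 * (m + 1) + 1) = t ^ (2 * m + 1) * t ^ 2 := by ring
    have h6 : ∀ u : ZMod 6, u * u ^ 2 = u := by decide
    rw [h, ih]
    exact h6 t

theorem key (p : ℕ) (hp : p.Prime) (h3 : p % 3 = 2) (h2 : p ≠ 2) (X Y q : ℕ) (hq : q.Prime) :
    X ^ q ≠ Y ^ q + 2 * p := by
  intro h
  have hp2 : p % 2 = 1 := by
    rcases hp.eq_two_or_odd with h4 | h4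
    · exact absurd h4 h2
    · exact h4
  rcases hq.eq_two_or_odd' with rfl | ⟨m, rfl⟩
  · have hX := Nat.pow_mod X 2 4
    have hY := Nat.pow_mod Y 2 4
    have hX4 : X % 4 < 4 := Nat.mod_lt _ (by norm_num)
    have hY4 : Y % 4 < 4 := Nat.mod_lt _ (by norm_num)
    have h5 : X ^ 2 % 4 = 0 ∨ X ^ 2 % 4 = 1 := by
      interval_cases (X % 4) <;> simp at hX <;> omega
    have h6 : Y ^ 2 % 4 = 0 ∨ Y ^ 2 % 4 = 1 := by
      interval_cases (Y % 4) <;> simp at hY <;> omega
    omega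
  · have hm : 1 ≤ m := by
      by_contra hm
      have : m = 0 := by omega
      subst this
      exact Nat.not_prime_one (by simpa using hq)
    have hlt : Y < X := by
      by_contra hc
      push Not at hc
      have := Nat.pow_le_pow_left hc (2 * m + 1)
      have := hp.pos
      omega
    obtain ⟨D, hD⟩ : ∃ D, X = Y + D := ⟨X - Y, by omega⟩
    have hD0 : 0 < D := by omega
    have hdvd : D ∣ 2 * p := by
      have h4 : ((X : ℤ) - Y) ∣ (X : ℤ) ^ (2 * m + 1) - (Y : ℤ) ^ (2 * m + 1) := sub_dvd_pow_sub_pow _ _ _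
      have h5 : (X : ℤ) ^ (2 * m + 1) - (Y : ℤ) ^ (2 * m + 1) = ((2 * p : ℕ) : ℤ) := by
        have : ((X ^ (2 * m + 1) : ℕ) : ℤ) = ((Y ^ (2 * m + 1) + 2 * p : ℕ) : ℤ) := by rw [h]
        push_cast at this ⊢
        linarith
      have h6 : (X : ℤ) - Y = (D : ℤ) := by
        rw [hD]
        push_cast
        ring
      rw [h5, h6] at h4
      exact_mod_cast h4
    have hmod : ((D : ℕ) : ZMod 6) = ((2 * p : ℕ) : ZMod 6) := by
      have h4 : ((X ^ (2 * m + 1) : ℕ) : ZMod 6) = ((Y ^ (2 * m + 1) + 2 * p : ℕ) : ZMod 6) := by rw [h]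
      rw [Nat.cast_pow, Nat.cast_add, Nat.cast_pow, pow_odd_six, pow_odd_six, hD, Nat.cast_add] at h4
      exact add_left_cancel h4
    have hmod' : D % 6 = 4 := by
      have h4 : D ≡ 2 * p [MOD 6] := (ZMod.natCast_eq_natCast_iff _ _ _).1 hmod
      unfold Nat.ModEq at h4
      omega
    obtain ⟨E, hE⟩ : ∃ E, D = 2 * E := ⟨D / 2, by omega⟩
    rw [hE] at hdvd
    have hEp : E ∣ p := Nat.dvd_of_mul_dvd_mul_left (by norm_num) hdvd
    rcases (Nat.dvd_prime hp).1 hEp with h7 | h7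
    · omega
    · subst h7
      have h8 : Y ^ (2 * m + 1) + D ^ (2 * m + 1) ≤ (Y + D) ^ (2 * m + 1) :=
        pow_add_pow_le (Nat.zero_le _) (Nat.zero_le _) (by omega)
      have h9 : D ^ 2 ≤ D ^ (2 * m + 1) := Nat.pow_le_pow_right hD0 (by omega)
      have h11 : 4 ≤ D := by omega
      have h10 : D < D ^ 2 := by
        rw [sq]
        exact lt_mul_of_one_lt_right hD0 (by omega)
      rw [hD] at h
      omega

/-- (1) If `p` is an odd prime with `p ≡ 2 (mod 3)`, then `2 p` is not of the form `x^k - y^l` with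
positive integers `x, y` and exponents `k, l` which have a common divisor `> 1`.  (2) So there are
infinitely many positive integers which are not of this form. -/
theorem result :
    (∀ p : ℕ, p.Prime → p % 3 = 2 → p ≠ 2 → ∀ x y k l : ℕ, 0 < x → 0 < y → 1 < Nat.gcd k l →
      x ^ k ≠ y ^ l + 2 * p) ∧
    (∀ N : ℕ, ∃ n : ℕ, N < n ∧ n % 4 = 2 ∧ ∀ x y k l : ℕ, 0 < x → 0 < y → 1 < Nat.gcd k l →
      x ^ k ≠ y ^ l + n) := by
  have main : ∀ p : ℕ, p.Prime → p % 3 = 2 → p ≠ 2 → ∀ x y k l : ℕ, 0 < x → 0 < y →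
      1 < Nat.gcd k l → x ^ k ≠ y ^ l + 2 * p := by
    intro p hp h3 h2 x y k l _ _ hg h
    obtain ⟨q, hq, hqd⟩ := Nat.exists_prime_and_dvd (by omega : Nat.gcd k l ≠ 1)
    obtain ⟨k', hk⟩ := hqd.trans (Nat.gcd_dvd_left k l)
    obtain ⟨l', hl⟩ := hqd.trans (Nat.gcd_dvd_right k l)
    apply key p hp h3 h2 (x ^ k') (y ^ l') q hq
    rw [← pow_mul, ← pow_mul, mul_comm k' q, mul_comm l' q, ← hk, ← hl]
    exact h
  refine ⟨main, ?_⟩
  intro N
  obtain ⟨p, hpN, hp, hmod⟩ := Nat.forall_exists_prime_gt_and_eq_mod (q := 3) (a := 2)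
    (by decide) (N + 2)
  have h3 : p % 3 = 2 := by
    have h4 : ((p : ℕ) : ZMod 3) = ((2 : ℕ) : ZMod 3) := by
      rw [hmod]
      rfl
    have h5 : p ≡ 2 [MOD 3] := (ZMod.natCast_eq_natCast_iff _ _ _).1 h4
    exact h5
  refine ⟨2 * p, by omega, ?_, main p hp h3 (by omega)⟩
  rcases hp.eq_two_or_odd with h6 | h6 <;> omega

end Pool.Agent.Results.MP_cb2e5b_nt.CommonExponent
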